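import Pool.Agent.H16.ZW.Targets

/-!
# ORB: the orbit stays close to infinity and follows the residual orbit
-/

open Filter Topology MvPolynomial

namespace Pool.Agent.H87.ZW

open Pool.Agent.H16.ZW Pool.Agent.H12.ZD

theorem v_zpow (p : Nat.Primes) (x : Qb) (n : ℤ) : v p (x ^ n) = v p x ^ n := by
  unfold v
  rw [map_zpow₀, norm_zpow]

theorem v_div (p : Nat.Primes) (x y : Qb) : v p (x / y) = v p x / v p y := by
  unfold v
  rw [map_div₀, norm_div]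

theorem ne_of_v {p : Nat.Primes} {x : Qb} (h : v p x = 1) : x ≠ 0 := by
  intro h0
  rw [h0, v_zero] at h
  exact zero_ne_one h

theorem v_t0 (p : Nat.Primes) : v p (t0 p) = ((p : ℕ) : ℝ) ^ 2 := by
  unfold t0
  rw [v_inv, v_pow, v_self, inv_pow, inv_inv]

section

variable {N : ℕ}

theorem unit_eval (hEVL : T_EVL) {w : Fin N → ℤ} {G : MvPolynomial (Fin N) Qb} {a : ℤ}
    {p : Nat.Primes} (hG : Hom w G a) (hc : ∀ m, v p (coeff m G) ≤ 1) {Y q : Fin N → Qb} {s : Qb}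
    (hY : ∀ i, v p (Y i) = 1) (hs : v p s = 1) (hq : ∀ i, v p (q i) = 1)
    (hYs : ∀ i, v p (Y i - s ^ w i * q i) < 1) (hu : v p (eval q G) = 1) :
    v p (eval Y G) = 1 := by
  have hz : ∀ i, v p (s ^ w i * q i) ≤ 1 := fun i => by
    rw [v_mul, v_zpow, hs, hq i, one_zpow, one_mul]
  have h1 := ((hEVL N w G a p 1 Y one_ne_zero).2.2 (fun i => s ^ w i * q i) hc
    (fun i => (hY i).le) hz).2 hYs
  have h2 := (hEVL N w G a p s q (ne_of_v hs)).1 hG
  rw [h2] at h1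
  have h3 : v p (s ^ a * eval q G) = 1 := by rw [v_mul, v_zpow, hs, hu, one_zpow, one_mul]
  rw [← h3] at h1
  rw [v_eq_of_sub_lt p h1, h3]

/-- values at scaled points -/
theorem scaled (hEVL : T_EVL) {w : Fin N → ℤ} {P PL : MvPolynomial (Fin N) Qb} {a : ℤ}
    {p : Nat.Primes} (hPL : Hom w PL a) (hP : Low w (P - PL) a) (hcP : ∀ m, v p (coeff m P) ≤ 1)
    (hcL : ∀ m, v p (coeff m PL) ≤ 1) {Y : Fin N → Qb} {T : Qb} (hY : ∀ i, v p (Y i) = 1)
    (hT : 1 < v p T) : ∃ e : Qb, v p e ≤ (v p T)⁻¹ ∧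
      eval (fun i => T ^ w i * Y i) P = T ^ a * (eval Y PL + e) := by
  have hT0 : T ≠ 0 := by
    intro h0
    rw [h0, v_zero] at hT
    linarith
  have hv0 : v p T ≠ 0 := by linarith
  have h1 := (hEVL N w PL a p T Y hT0).1 hPL
  have h2 := (hEVL N w (P - PL) a p T Y hT0).2.1 hP (fun m => by
    rw [coeff_sub]
    exact v_sub_le' p (hcP m) (hcL m)) (fun i => (hY i).le) hT.le
  refine ⟨eval (fun i => T ^ w i * Y i) (P - PL) / T ^ a, ?_, ?_⟩
  · rw [v_div, v_zpow, div_le_iff₀ (zpow_pos (by linarith) _)]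
    refine h2.trans (le_of_eq ?_)
    rw [zpow_sub_one₀ hv0, mul_comm]
  · have hTa : T ^ a ≠ 0 := zpow_ne_zero _ hT0
    rw [mul_add, mul_div_cancel₀ _ hTa, map_sub, h1]
    ring

/-- the weights -/
theorem weights (hMON : T_MON) (hEVL : T_EVL) {D : Dat N} (hD : D.Ok) {p : Nat.Primes}
    {Y : Fin N → Qb} {T : Qb} (hY : ∀ i, v p (Y i) = 1) (hT : 1 < v p T)
    (hU : v p (eval Y D.U) = 1) (hV : v p (eval Y D.V) = 1)
    (hQ : ∀ i, v p (eval Y (D.QL i)) = 1) (hP : ∀ i, v p (eval Y (D.PL i)) = 1) (i : Fin N) :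
    D.a i = D.b i + D.δ * D.w i := by
  have hT0 : T ≠ 0 := by
    intro h0
    rw [h0, v_zero] at hT
    linarith
  have hTz : ∀ n : ℤ, T ^ n ≠ 0 := fun n => zpow_ne_zero _ hT0
  have hY0 : ∀ j, Y j ≠ 0 := fun j => ne_of_v (hY j)
  have e1 := hD.idn Y hY0 (ne_of_v hU) (ne_of_v hV) (fun i => ne_of_v (hQ i)) i
  have eU := (hEVL N D.w D.U D.μU p T Y hT0).1 hD.hU
  have eV := (hEVL N D.w D.V D.μV p T Y hT0).1 hD.hV
  have eQ := fun i => (hEVL N D.w (D.QL i) (D.b i) p T Y hT0).1 (hD.hQL i)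
  have eP := (hEVL N D.w (D.PL i) (D.a i) p T Y hT0).1 (hD.hPL i)
  have e2 := hD.idn (fun j => T ^ D.w j * Y j) (fun j => mul_ne_zero (hTz _) (hY0 j))
    (by rw [eU]; exact mul_ne_zero (hTz _) (ne_of_v hU))
    (by rw [eV]; exact mul_ne_zero (hTz _) (ne_of_v hV))
    (fun i => by rw [eQ i]; exact mul_ne_zero (hTz _) (ne_of_v (hQ i))) i
  have hm : mon (fun j => T ^ D.w j * Y j) (D.A i) = T ^ (D.d * D.w i) * mon Y (D.A i) := by
    rw [(hMON N).2.2.1 Qb (fun j => T ^ D.w j) Y (D.A i), (hMON N).2.2.2.2.1 Qb T D.w (D.A i) hT0,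
      hD.eig i]
  rw [eU, eV, eQ i, eP, hm] at e2
  have hr : (T ^ D.μU * eval Y D.U) / (T ^ D.μV * eval Y D.V) =
      T ^ (D.μU - D.μV) * (eval Y D.U / eval Y D.V) := by
    rw [zpow_sub₀ hT0, mul_div_mul_comm]
  rw [hr, mul_zpow, ← zpow_mul] at e2
  have e3 : T ^ D.a i * eval Y (D.PL i) =
      T ^ (D.b i + D.δ * D.w i) * eval Y (D.PL i) := by
    rw [e2]
    conv_rhs => rw [e1]
    have : T ^ (D.b i + (D.δ : ℤ) * D.w i) =
        T ^ D.b i * T ^ (D.d * D.w i) * T ^ ((D.μU - D.μV) * D.w i) := by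
      rw [← zpow_add₀ hT0, ← zpow_add₀ hT0, hD.del]
      congr 1
      ring
    rw [this]
    ring
  have e4 := mul_right_cancel₀ (ne_of_v (hP i)) e3
  have e5 : v p T ^ D.a i = v p T ^ (D.b i + D.δ * D.w i) := by
    rw [← v_zpow, ← v_zpow, e4]
  exact zpow_right_injective₀ (by linarith) hT.ne' e5

/-- one step -/
theorem stepL (hMON : T_MON) (hEVL : T_EVL) {D : Dat N} (hD : D.Ok) {p : Nat.Primes}
    {q : ℕ → Fin N → Qb} (hp : GoodP p D q) (n : ℕ) (T : Qb) (hT : 1 < v p T) (Y : Fin N → Qb)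
    (hY : ∀ i, v p (Y i) = 1) (s : Qb) (hs : v p s = 1)
    (hYs : ∀ i, v p (Y i - s ^ D.w i * q n i) < 1) :
    (∀ i, eval (fun i => T ^ D.w i * Y i) (D.Q i) ≠ 0) ∧ ∃ μ, v p μ = 1 ∧
      (∀ i, v p (D.map (fun i => T ^ D.w i * Y i) i / (T ^ D.δ) ^ D.w i -
        D.c i * mon Y (D.A i) * μ ^ D.w i) ≤ (v p T)⁻¹) ∧
      (∀ i, v p (D.map (fun i => T ^ D.w i * Y i) i / (T ^ D.δ) ^ D.w i) = 1) ∧
      ∃ s', v p s' = 1 ∧ ∀ i, v p (D.map (fun i => T ^ D.w i * Y i) i / (T ^ D.δ) ^ D.w i -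
        s' ^ D.w i * q (n + 1) i) < 1 := by
  have hT0 : T ≠ 0 := by
    intro h0
    rw [h0, v_zero] at hT
    linarith
  have hTz : ∀ n : ℤ, T ^ n ≠ 0 := fun n => zpow_ne_zero _ hT0
  have hTi : (v p T)⁻¹ < 1 := inv_lt_one_of_one_lt₀ hT
  have hY0 : ∀ j, Y j ≠ 0 := fun j => ne_of_v (hY j)
  have hU := unit_eval hEVL hD.hU hp.cU hY hs (hp.q1 n) hYs (hp.qU n)
  have hV := unit_eval hEVL hD.hV hp.cV hY hs (hp.q1 n) hYs (hp.qV n)
  have hQ := fun i => unit_eval hEVL (hD.hQL i) (hp.cQL i) hY hs (hp.q1 n) hYs (hp.qQ n i)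
  obtain ⟨μ, hμ⟩ : ∃ μ, μ = eval Y D.U / eval Y D.V := ⟨_, rfl⟩
  have hμ1 : v p μ = 1 := by rw [hμ, v_div, hU, hV, div_one]
  have hm1 : ∀ i, v p (mon Y (D.A i)) = 1 := fun i =>
    ((hMON N).2.2.2.2.2 p Y Y (D.A i) 1 le_rfl hY hY).1
  have hid : ∀ i, eval Y (D.PL i) =
      eval Y (D.QL i) * D.c i * mon Y (D.A i) * μ ^ D.w i := fun i => by
    rw [hμ]
    exact hD.idn Y hY0 (ne_of_v hU) (ne_of_v hV) (fun i => ne_of_v (hQ i)) i
  have hz1 : ∀ i, v p (D.c i * mon Y (D.A i) * μ ^ D.w i) = 1 := fun i => by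
    rw [v_mul, v_mul, hp.c1 i, hm1 i, v_zpow, hμ1, one_zpow]
    norm_num
  have hP : ∀ i, v p (eval Y (D.PL i)) = 1 := fun i => by
    rw [hid i, mul_assoc, mul_assoc, v_mul, ← mul_assoc, hQ i, hz1 i, one_mul]
  have hw := weights hMON hEVL hD hY hT hU hV hQ hP
  choose e he1 he2 using fun i => scaled hEVL (hD.hPL i) (hD.hP i) (hp.cP i) (hp.cPL i) hY hT
  choose e' he1' he2' using fun i => scaled hEVL (hD.hQL i) (hD.hQ i) (hp.cQ i) (hp.cQL i) hY hT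
  have hqe : ∀ i, v p (eval Y (D.QL i) + e' i) = 1 := fun i => by
    have h1 : v p (eval Y (D.QL i) + e' i - eval Y (D.QL i)) < v p (eval Y (D.QL i)) := by
      rw [add_sub_cancel_left, hQ i]
      exact (he1' i).trans_lt hTi
    rw [v_eq_of_sub_lt p h1, hQ i]
  have hval : ∀ i, D.map (fun i => T ^ D.w i * Y i) i / (T ^ D.δ) ^ D.w i =
      (eval Y (D.PL i) + e i) / (eval Y (D.QL i) + e' i) := fun i => by
    have h1 : (T ^ D.δ) ^ D.w i = T ^ ((D.δ : ℤ) * D.w i) := by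
      rw [← zpow_natCast, ← zpow_mul]
    have h2 : T ^ D.a i = T ^ D.b i * T ^ ((D.δ : ℤ) * D.w i) := by
      rw [hw i, zpow_add₀ hT0]
    have h3 : T ^ ((D.δ : ℤ) * D.w i) ≠ 0 := hTz _
    have h4 : T ^ D.b i ≠ 0 := hTz _
    have h5 : eval Y (D.QL i) + e' i ≠ 0 := ne_of_v (hqe i)
    unfold Dat.map
    rw [he2 i, he2' i, h1, h2]
    field_simp
  have hcl : ∀ i, v p (D.map (fun i => T ^ D.w i * Y i) i / (T ^ D.δ) ^ D.w i -
      D.c i * mon Y (D.A i) * μ ^ D.w i) ≤ (v p T)⁻¹ := fun i => by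
    have h5 : eval Y (D.QL i) + e' i ≠ 0 := ne_of_v (hqe i)
    have h6 : D.map (fun i => T ^ D.w i * Y i) i / (T ^ D.δ) ^ D.w i -
        D.c i * mon Y (D.A i) * μ ^ D.w i =
        (e i - e' i * (D.c i * mon Y (D.A i) * μ ^ D.w i)) / (eval Y (D.QL i) + e' i) := by
      rw [hval i, hid i, eq_div_iff h5, sub_mul, div_mul_cancel₀ _ h5]
      ring
    rw [h6, v_div, hqe i, div_one]
    refine v_sub_le' p (he1 i) ?_
    rw [v_mul, hz1 i, mul_one]
    exact he1' i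
  refine ⟨fun i => ?_, μ, hμ1, hcl, fun i => ?_, s ^ D.d * μ, ?_, fun i => ?_⟩
  · rw [he2' i]
    exact mul_ne_zero (hTz _) (ne_of_v (hqe i))
  · have h1 := (hcl i).trans_lt hTi
    have h2 := hz1 i
    rw [← h2] at h1
    rw [v_eq_of_sub_lt p h1, h2]
  · rw [v_mul, v_zpow, hs, hμ1, one_zpow, one_mul]
  · -- the residue
    have hz : ∀ i, v p (s ^ D.w i * q n i) = 1 := fun i => by
      rw [v_mul, v_zpow, hs, hp.q1 n i, one_zpow, one_mul]
    have h1 : v p (mon Y (D.A i) - mon (fun i => s ^ D.w i * q n i) (D.A i)) < 1 :=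
      ((hMON N).2.2.2.2.2 p Y (fun i => s ^ D.w i * q n i) (D.A i) 1 le_rfl hY hz).2.1 hYs one_pos
    have h2 : mon (fun i => s ^ D.w i * q n i) (D.A i) = s ^ (D.d * D.w i) * mon (q n) (D.A i) := by
      rw [(hMON N).2.2.1 Qb (fun j => s ^ D.w j) (q n) (D.A i),
        (hMON N).2.2.2.2.1 Qb s D.w (D.A i) (ne_of_v hs), hD.eig i]
    have h3 : D.map (fun i => T ^ D.w i * Y i) i / (T ^ D.δ) ^ D.w i -
        (s ^ D.d * μ) ^ D.w i * q (n + 1) i =
        (D.map (fun i => T ^ D.w i * Y i) i / (T ^ D.δ) ^ D.w i -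
          D.c i * mon Y (D.A i) * μ ^ D.w i) +
        (D.c i * μ ^ D.w i * (mon Y (D.A i) - mon (fun i => s ^ D.w i * q n i) (D.A i)) +
        (s ^ D.d * μ) ^ D.w i * (D.c i * mon (q n) (D.A i) - q (n + 1) i)) := by
      rw [h2, mul_zpow, ← zpow_mul]
      ring
    rw [h3]
    refine v_add_lt p ((hcl i).trans_lt hTi) (v_add_lt p ?_ ?_)
    · rw [v_mul, v_mul, hp.c1 i, v_zpow, hμ1, one_zpow, one_mul, one_mul]
      exact h1
    · rw [v_mul, v_zpow, v_mul, v_zpow, hs, hμ1, one_zpow, one_mul, one_zpow, one_mul]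
      exact hp.qs n i

end

theorem orb (hMON : T_MON) (hEVL : T_EVL) : T_ORB := by
  intro N D hD p q hp x y₀ hx hy₀
  obtain ⟨T, hTd⟩ : ∃ T : ℕ → Qb, T = fun n => t0 p ^ D.δ ^ n := ⟨_, rfl⟩
  have hTn : ∀ n, T n = t0 p ^ D.δ ^ n := fun n => by rw [hTd]
  have hp1 : (1 : ℝ) < ((p : ℕ) : ℝ) := by exact_mod_cast p.2.one_lt
  have hv : ∀ n, v p (T n) = ((p : ℕ) : ℝ) ^ (2 * D.δ ^ n) := fun n => by
    rw [hTn, v_pow, v_t0, ← pow_mul]
  have hδ : ∀ n, 1 ≤ D.δ ^ n := fun n => Nat.one_le_pow _ _ (by have := hD.two; omega)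
  have hT1 : ∀ n, 1 < v p (T n) := fun n => by
    rw [hv]
    exact one_lt_pow₀ hp1 (by have := hδ n; omega)
  have hT0 : ∀ n, T n ≠ 0 := fun n h0 => by
    have := hT1 n
    rw [h0, v_zero] at this
    linarith
  have hTs : ∀ n, T (n + 1) = T n ^ D.δ := fun n => by
    rw [hTn, hTn, pow_succ, pow_mul]
  obtain ⟨y, hy⟩ : ∃ y : ℕ → Fin N → Qb, y = fun n i => (D.map^[n] x) i / T n ^ D.w i := ⟨_, rfl⟩
  have hyn : ∀ n i, y n i = (D.map^[n] x) i / T n ^ D.w i := fun n i => by rw [hy]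
  have horb : ∀ n i, (D.map^[n] x) i = T n ^ D.w i * y n i := fun n i => by
    rw [hyn, mul_div_cancel₀ _ (zpow_ne_zero _ (hT0 n))]
  have horb' : ∀ n, D.map^[n] x = fun i => T n ^ D.w i * y n i := fun n => funext (horb n)
  have hy0 : y 0 = y₀ := by
    funext i
    have hT00 : T 0 = t0 p := by rw [hTn, pow_zero, pow_one]
    have h1 := zpow_ne_zero (D.w i) (hT0 0)
    rw [hyn, Function.iterate_zero, id, hx i, ← hT00, mul_div_cancel_left₀ _ h1]
  have hinv : ∀ n, (∀ i, v p (y n i) = 1) ∧ ∃ s : Qb, v p s = 1 ∧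
      ∀ i, v p (y n i - s ^ D.w i * q n i) < 1 := by
    intro n
    induction n with
    | zero =>
      rw [hy0]
      refine ⟨fun i => ?_, 1, v_one p, fun i => ?_⟩
      · have h1 := hy₀ i
        have h2 := hp.q1 0 i
        rw [← h2] at h1
        rw [v_eq_of_sub_lt p h1, h2]
      · rw [one_zpow, one_mul]
        exact hy₀ i
    | succ n ih =>
      obtain ⟨h1, s, hs, h2⟩ := ih
      obtain ⟨-, μ, -, -, h5, s', hs', h6⟩ := stepL hMON hEVL hD hp n (T n) (hT1 n) (y n) h1 s hs h2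
      have he : ∀ i, y (n + 1) i = D.map (fun i => T n ^ D.w i * y n i) i /
          (T n ^ D.δ) ^ D.w i := fun i => by
        rw [hyn (n + 1), Function.iterate_succ_apply', horb' n, hTs]
      refine ⟨fun i => ?_, s', hs', fun i => ?_⟩
      · rw [he]; exact h5 i
      · rw [he]; exact h6 i
  refine ⟨y, hy0, ?_⟩
  refine { unit := fun n => (hinv n).1, orb := ?_, def_ := ?_, res := fun n => (hinv n).2,
           step := ?_ }
  · intro n i
    rw [horb n i, hTn]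
  · intro n i
    obtain ⟨h1, s, hs, h2⟩ := hinv n
    obtain ⟨h3, -⟩ := stepL hMON hEVL hD hp n (T n) (hT1 n) (y n) h1 s hs h2
    rw [horb' n]
    exact h3 i
  · intro n
    obtain ⟨h1, s, hs, h2⟩ := hinv n
    obtain ⟨-, μ, hμ, h4, -⟩ := stepL hMON hEVL hD hp n (T n) (hT1 n) (y n) h1 s hs h2
    refine ⟨μ, hμ, fun i => ?_⟩
    have he : y (n + 1) i = D.map (fun i => T n ^ D.w i * y n i) i /
        (T n ^ D.δ) ^ D.w i := by
      rw [hyn (n + 1), Function.iterate_succ_apply', horb' n, hTs]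
    rw [he]
    refine (h4 i).trans (le_of_eq ?_)
    rw [hv, inv_pow]

end Pool.Agent.H87.ZW
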