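import Pool.Agent.H16.ZW.Targets
import Mathlib.Data.Finsupp.Lex

/-!
# ORD: logarithmic derivatives which are exponential polynomials are constant
-/

open Finset
open scoped Pointwise

namespace Pool.Agent.H87.ZW

open Pool.Agent.H16.ZW

variable {K : Type} [Field K]

theorem coeff_DD (x : EE K) (b : K) :
    (DD x).coeff b = Polynomial.derivative (x.coeff b) + Polynomial.C b * x.coeff b := by
  unfold DD
  rfl

theorem supp_DD (x : EE K) : (DD x).coeff.support ⊆ x.coeff.support := by
  intro b hb
  rw [Finsupp.mem_support_iff] at hb ⊢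
  intro h0
  apply hb
  rw [coeff_DD, h0]
  simp

theorem mem_mul [DecidableEq K] {x y : EE K} {u : K} (hu : u ∈ (x * y).coeff.support) :
    ∃ s ∈ x.coeff.support, ∃ t ∈ y.coeff.support, s + t = u := by
  have h := AddMonoidAlgebra.support_coeff_mul_subset x y hu
  obtain ⟨s, hs, t, ht, h⟩ := Finset.mem_add.1 h
  exact ⟨s, hs, t, ht, h⟩

section order

variable {L : Type} [AddCommGroup L] [LinearOrder L] [IsOrderedAddMonoid L]

omit [IsOrderedAddMonoid L] in
theorem exists_top (h : K →+ L) {x : EE K} (hx : x ≠ 0) :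
    ∃ α ∈ x.coeff.support, ∀ β ∈ x.coeff.support, h β ≤ h α := by
  have hne : x.coeff.support.Nonempty := by
    rw [Finsupp.support_nonempty_iff]
    intro h0
    apply hx
    rwa [← AddMonoidAlgebra.coeff_eq_zero]
  exact Finset.exists_max_image _ _ hne

theorem uq (h : K →+ L) (hinj : Function.Injective h) {A B : Finset K} {α β : K}
    (hA : ∀ a ∈ A, h a ≤ h α) (hB : ∀ b ∈ B, h b ≤ h β) : UniqueAdd A B α β := by
  intro a b ha hb hab
  have h1 : h a + h b = h α + h β := by rw [← map_add, hab, map_add]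
  have h2 := hA a ha
  have h3 := hB b hb
  have h4 : h a = h α := le_antisymm h2 (by
    by_contra hlt
    rw [not_le] at hlt
    exact absurd h1 (add_lt_add_of_lt_of_le hlt h3).ne)
  have h5 : h b = h β := by
    rw [h4] at h1
    exact add_left_cancel h1
  exact ⟨hinj h4, hinj h5⟩

theorem supp_le (h : K →+ L) (hinj : Function.Injective h) {a b T : EE K} (ha : a ≠ 0)
    (hb : b ≠ 0) (hT : T ≠ 0) (he : b * DD a - a * DD b + T * a * b = 0) :
    ∀ t ∈ T.coeff.support, h t ≤ 0 := by
  classical
  obtain ⟨τ, hτ, hτm⟩ := exists_top h hT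
  obtain ⟨α, hα, hαm⟩ := exists_top h ha
  obtain ⟨β, hβ, hβm⟩ := exists_top h hb
  have hab : (a * b).coeff (α + β) ≠ 0 := by
    rw [AddMonoidAlgebra.coeff_mul_add_of_uniqueAdd (uq h hinj hαm hβm)]
    exact mul_ne_zero (Finsupp.mem_support_iff.1 hα) (Finsupp.mem_support_iff.1 hβ)
  have hab0 : a * b ≠ 0 := by
    intro h0
    rw [h0] at hab
    exact hab rfl
  obtain ⟨γ, hγ, hγm⟩ := exists_top h hab0
  have h1 : h (α + β) ≤ h γ := hγm _ (Finsupp.mem_support_iff.2 hab)
  have h2 : (T * (a * b)).coeff (τ + γ) ≠ 0 := by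
    rw [AddMonoidAlgebra.coeff_mul_add_of_uniqueAdd (uq h hinj hτm hγm)]
    exact mul_ne_zero (Finsupp.mem_support_iff.1 hτ) (Finsupp.mem_support_iff.1 hγ)
  have h3 : T * (a * b) = a * DD b - b * DD a := by
    linear_combination he
  rw [h3] at h2
  have h4 : h (τ + γ) ≤ h (α + β) := by
    have h5 : (a * DD b).coeff (τ + γ) ≠ 0 ∨ (b * DD a).coeff (τ + γ) ≠ 0 := by
      by_contra hno
      push Not at hno
      apply h2
      rw [AddMonoidAlgebra.coeff_sub, Finsupp.sub_apply, hno.1, hno.2, sub_zero]
    rcases h5 with h5 | h5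
    · obtain ⟨s, hs, t, ht, hst⟩ := mem_mul (Finsupp.mem_support_iff.2 h5)
      rw [← hst, map_add, map_add]
      exact add_le_add (hαm s hs) (hβm t (supp_DD b ht))
    · obtain ⟨s, hs, t, ht, hst⟩ := mem_mul (Finsupp.mem_support_iff.2 h5)
      rw [← hst, map_add, map_add, add_comm (h s)]
      exact add_le_add (hαm t (supp_DD a ht)) (hβm s hs)
  have h6 : h τ ≤ 0 := by
    have h7 := h4.trans h1
    rw [map_add] at h7
    exact nonpos_of_add_le_left h7
  exact fun t ht => (hτm t ht).trans h6

end order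

theorem exists_order (K : Type) [Field K] [CharZero K] :
    ∃ (L : Type) (_ : AddCommGroup L) (_ : LinearOrder L) (_ : IsOrderedAddMonoid L)
      (h : K →+ L), Function.Injective h := by
  classical
  let _ : LinearOrder (Module.Basis.ofVectorSpaceIndex ℚ K) := linearOrderOfSTO WellOrderingRel
  refine ⟨Lex (Module.Basis.ofVectorSpaceIndex ℚ K →₀ ℚ), inferInstance, inferInstance,
    inferInstance,
    { toFun := fun x => toLex ((Module.Basis.ofVectorSpace ℚ K).repr x)
      map_zero' := by simp
      map_add' := fun x y => by simp }, ?_⟩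
  intro x y hxy
  exact (Module.Basis.ofVectorSpace ℚ K).repr.injective (toLex.injective hxy)

theorem ord : T_ORD := by
  classical
  intro K _ _ a b T ha hb he
  by_cases hT : T = 0
  · refine ⟨0, ?_⟩
    rw [hT]
    simp
  obtain ⟨L, _, _, _, h, hinj⟩ := exists_order K
  have hs : ∀ t ∈ T.coeff.support, t = 0 := by
    intro t ht
    have h1 := supp_le h hinj ha hb hT he t ht
    have h2 := supp_le (-h) (fun x y hxy => hinj (neg_injective (by simpa using hxy)))
      ha hb hT he t ht
    have h3 : h t = 0 := by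
      refine le_antisymm h1 ?_
      simpa using h2
    exact hinj (h3.trans (map_zero h).symm)
  obtain ⟨q, hq⟩ : ∃ q, q = T.coeff 0 := ⟨_, rfl⟩
  have hTq : T = AddMonoidAlgebra.single 0 q := by
    apply AddMonoidAlgebra.coeff_injective
    ext1 u
    rw [AddMonoidAlgebra.coeff_single]
    by_cases hu : u = 0
    · rw [hu, hq, Finsupp.single_eq_same]
    · rw [Finsupp.single_eq_of_ne (by exact hu)]
      by_contra hne
      exact hu (hs u (Finsupp.mem_support_iff.2 hne))
  have hq0 : q ≠ 0 := by
    intro h0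
    apply hT
    rw [hTq, h0]
    simp
  obtain ⟨α, hα, hαm⟩ := exists_top h ha
  obtain ⟨β, hβ, hβm⟩ := exists_top h hb
  have hα0 := Finsupp.mem_support_iff.1 hα
  have hβ0 := Finsupp.mem_support_iff.1 hβ
  have e1 : (b * DD a).coeff (α + β) = b.coeff β *
      (Polynomial.derivative (a.coeff α) + Polynomial.C α * a.coeff α) := by
    rw [add_comm α β, AddMonoidAlgebra.coeff_mul_add_of_uniqueAdd
      (uq h hinj hβm (fun t ht => hαm t (supp_DD a ht))), coeff_DD]
  have e2 : (a * DD b).coeff (α + β) = a.coeff α *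
      (Polynomial.derivative (b.coeff β) + Polynomial.C β * b.coeff β) := by
    rw [AddMonoidAlgebra.coeff_mul_add_of_uniqueAdd
      (uq h hinj hαm (fun t ht => hβm t (supp_DD b ht))), coeff_DD]
  have e3 : (T * a * b).coeff (α + β) = q * (a.coeff α * b.coeff β) := by
    have hu : UniqueAdd T.coeff.support (a * b).coeff.support 0 (α + β) := by
      intro s t hs' _ hst
      have := hs s hs'
      rw [this, zero_add, zero_add] at hst
      exact ⟨this, hst⟩
    have := AddMonoidAlgebra.coeff_mul_add_of_uniqueAdd hu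
    rw [zero_add, ← mul_assoc, ← hq, AddMonoidAlgebra.coeff_mul_add_of_uniqueAdd
      (uq h hinj hαm hβm)] at this
    exact this
  have e4 : (b * DD a - a * DD b + T * a * b).coeff (α + β) = 0 := by
    rw [he]
    rfl
  rw [AddMonoidAlgebra.coeff_add, AddMonoidAlgebra.coeff_sub, Finsupp.add_apply,
    Finsupp.sub_apply, e1, e2, e3] at e4
  have e5 : q * (a.coeff α * b.coeff β) = a.coeff α *
      (Polynomial.derivative (b.coeff β) + Polynomial.C β * b.coeff β) - b.coeff β *
      (Polynomial.derivative (a.coeff α) + Polynomial.C α * a.coeff α) := by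
    linear_combination e4
  have hdeg : ∀ (f : Polynomial K) (c : K),
      (Polynomial.derivative f + Polynomial.C c * f).natDegree ≤ f.natDegree := by
    intro f c
    refine Polynomial.natDegree_add_le_of_degree_le ?_ (Polynomial.natDegree_C_mul_le _ _)
    exact (Polynomial.natDegree_derivative_le f).trans (Nat.sub_le _ _)
  have d1 : (q * (a.coeff α * b.coeff β)).natDegree =
      q.natDegree + ((a.coeff α).natDegree + (b.coeff β).natDegree) := by
    rw [Polynomial.natDegree_mul hq0 (mul_ne_zero hα0 hβ0), Polynomial.natDegree_mul hα0 hβ0]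
  have d2 : (q * (a.coeff α * b.coeff β)).natDegree ≤
      (a.coeff α).natDegree + (b.coeff β).natDegree := by
    rw [e5]
    refine (Polynomial.natDegree_sub_le _ _).trans (max_le ?_ ?_)
    · refine Polynomial.natDegree_mul_le.trans (add_le_add le_rfl (hdeg _ _))
    · refine Polynomial.natDegree_mul_le.trans ?_
      rw [add_comm]
      exact add_le_add (hdeg _ _) le_rfl
  have d3 : q.natDegree = 0 := by omega
  refine ⟨q.coeff 0, ?_⟩
  rw [hTq, ← Polynomial.eq_C_of_natDegree_eq_zero d3]

end Pool.Agent.H87.ZW
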